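import Pool.Agent.Helper73_SGP.Ord
import Pool.Agent.Helper81_SGP.Cone
import Pool.Agent.Helper56_SGP.CTR
import Pool.Agent.Helper56_SGP.STA
import Pool.Agent.Helper19_SGP.DRW
import Pool.Agent.Helper20_SGP.GEX
import Pool.Agent.Helper39_SGP.INS
import Pool.Agent.Helper39_SGP.SRT
import Pool.Agent.Helper3_SGP.MAI
import Pool.Agent.Helper17_SGP.PW1
import Pool.Agent.Helper17_SGP.RMV
import Pool.Agent.Helper24_SGP.PW2
import Pool.Agent.Helper77_SGP.ROT
import Pool.Agent.Helper10_SGP.STB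
import Pool.Agent.Helper99_SGP.THX

import Pool.Agent.Helper32_SGP.NXS

/-!
# Squad SGP: assembly
-/

noncomputable section

namespace Pool.Agent.SGP.H73

open Pool.Agent.SGE

theorem mai : MaiStmt :=
  H3.mai H77.rot (H56.ctr H17.rmv H81.con) H39.ins (H56.sta H39.srt H32.nxs) (H10.stb H32.nxs)
    H32.gro

/-- Theorem X: a planar graph and a subgraph of an Apollonian path -/
theorem thx : ThxStmt := H99.thx mai H20.gex (H19.drw Pool.Agent.SGE.H99.seg)

theorem apo_of_pd {n : ℕ} (G : SimpleGraph (Fin n)) (B : ℕ → Finset (Fin n)) (h : PD2 G B) :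
    Apo G := by
  obtain ⟨σ, hσ⟩ := H17.pw1 G B h
  exact H24.pw2 G σ hσ

end Pool.Agent.SGP.H73
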