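import Pool.Agent.SGP.Stmts

/-!
# Squad SGP: from orders to colourings

If at most two of the vertices before `σ j` have a neighbour after `σ j`, for all `j`, then there is
a colouring with three colours as in `Apo`.
-/

noncomputable section

namespace Pool.Agent.SGP.H73

open Pool.Agent.SGE

theorem apo_of_ord {n : ℕ} (G : SimpleGraph (Fin n)) (σ : Equiv.Perm (Fin n))
    (h : ∀ j, {i : Fin n | i < j ∧ ∃ l, j < l ∧ G.Adj (σ i) (σ l)}.ncard ≤ 2) : Apo G := by
  classical
  have key : ∀ m : ℕ, ∃ w : Fin n → Fin 3, ∀ j : Fin n, j.val < m →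
      ∀ i, i < j → (∃ l, j < l ∧ G.Adj (σ i) (σ l)) → w j ≠ w i := by
    intro m
    induction m with
    | zero => exact ⟨fun _ => 0, fun j hj => absurd hj (Nat.not_lt_zero _)⟩
    | succ m ih =>
      obtain ⟨w, hw⟩ := ih
      by_cases hm : m < n
      · set j₀ : Fin n := ⟨m, hm⟩ with hj₀
        set S : Set (Fin n) := {i : Fin n | i < j₀ ∧ ∃ l, j₀ < l ∧ G.Adj (σ i) (σ l)} with hS
        have hfin : S.Finite := Set.toFinite _
        have hc : (hfin.toFinset.image w).card < (Finset.univ : Finset (Fin 3)).card := by
          refine lt_of_le_of_lt Finset.card_image_le ?_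
          rw [← Set.ncard_eq_toFinset_card S hfin]
          have h1 : S.ncard ≤ 2 := h j₀
          simp only [Finset.card_univ, Fintype.card_fin]
          omega
        obtain ⟨c, -, hc2⟩ := Finset.exists_mem_notMem_of_card_lt_card hc
        refine ⟨Function.update w j₀ c, fun j hj i hi hl => ?_⟩
        have hij : i ≠ j₀ := by
          intro e
          have h1 : i.val < j.val := hi
          rw [e] at h1
          have h2 : j₀.val = m := rfl
          omega
        rw [Function.update_of_ne hij]
        by_cases e : j = j₀
        · subst e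
          rw [Function.update_self]
          intro e2
          exact hc2 (Finset.mem_image.2 ⟨i, by
            rw [Set.Finite.mem_toFinset]; exact ⟨hi, hl⟩, e2.symm⟩)
        · rw [Function.update_of_ne e]
          refine hw j ?_ i hi hl
          have h1 : j.val ≠ m := fun e2 => e (Fin.ext e2)
          omega
      · refine ⟨w, fun j hj i hi hl => hw j ?_ i hi hl⟩
        have := j.isLt
        omega
  obtain ⟨w, hw⟩ := key n
  exact ⟨σ, w, fun i j l hil hlj hadj => hw l l.isLt i hil ⟨j, hlj, hadj⟩⟩

end Pool.Agent.SGP.H73
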